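import Pool.Agent.Lib.MP_defcf3_al.BRP.H90.FiveC

/-! Steps 5 and 6: the symbols of x - b with W(a, x) vanish, and the symbols of x - b with s x - a vanish. -/

namespace BRP.H90

universe u v w

section

variable {F : Type u} {L : Type v} [Field F] [Field L] [Algebra F L] {s : L ≃ₐ[F] L}
variable {K : Type*} {Q : Type w} [Field K] [AddCommGroup Q] [Module K Q] {β : L → L → Q} {w : K}

theorem nu4 {w : K} (hw : w ^ 4 + w ^ 3 + w ^ 2 + w + 1 = 0) (h5 : (5 : K) ≠ 0) : (- (w + w ^ 4)) ^ 4 ≠ 1 := by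
  have hw5 : w ^ 5 = 1 := by linear_combination (w - 1) * hw
  set ν := w + w ^ 4 with hν
  have h2 : ν ^ 2 = 1 - ν := by
    rw [hν]
    linear_combination (w ^ 3 + 2) * hw5 + hw
  intro h
  have h4 : (- ν) ^ 4 = 2 - 3 * ν := by
    linear_combination (ν ^ 2 + 2 - ν) * h2
  rw [h4] at h
  have h3 : 3 * ν = 1 := by linear_combination -h
  apply h5
  linear_combination (-9) * h2 + (3 * ν + 1 + 3) * h3

theorem nu0 {w : K} (hw : w ^ 4 + w ^ 3 + w ^ 2 + w + 1 = 0) : w + w ^ 4 ≠ 0 := by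
  have hw5 : w ^ 5 = 1 := by linear_combination (w - 1) * hw
  set ν := w + w ^ 4 with hν
  have h2 : ν ^ 2 = 1 - ν := by
    rw [hν]
    linear_combination (w ^ 3 + 2) * hw5 + hw
  intro h
  rw [h] at h2
  norm_num at h2

/-- Step 5. -/
theorem step5 (h : Sy F β) (hc : Cy5 s) (hw : w ^ 4 + w ^ 3 + w ^ 2 + w + 1 = 0) (h5 : (5 : K) ≠ 0)
    (hg : ∀ a b, β (s a) (s b) = w • β a b) {x : L}
    (hx : ¬ ∃ f : F, algebraMap F L f = x) {W : W6 F} (hR : W.Rt x (s x) (s (s (s (s x))))) {a0 a1 : F}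
    (ha : ¬ (a0 = 0 ∧ a1 = 0)) (b : F) : β (x - algebraMap F L b) (W.ev a0 a1 x) = 0 := by
  by_cases hU : W.U a0 a1 = 0
  · unfold W6.ev
    rw [hU, map_zero, zero_mul, zero_add, h.xlin]
  obtain ⟨τ, hτ⟩ : ∃ τ, W.V a0 a1 = - (τ * W.U a0 a1) := ⟨- (W.V a0 a1 / W.U a0 a1), by field_simp⟩
  obtain ⟨n, hn⟩ : ∃ n, W.T a0 a1 = n * W.U a0 a1 := ⟨W.T a0 a1 / W.U a0 a1, by field_simp⟩
  have hev : W.ev a0 a1 x = algebraMap F L (W.U a0 a1) * qd τ n x := by
    unfold W6.ev qd
    rw [hτ, hn]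
    simp only [map_neg, map_mul]
    ring
  rw [hev, h.sr _ hU]
  by_cases hq : ∃ c : F, c ^ 2 - τ * c + n = 0
  · obtain ⟨c, hc0⟩ := hq
    have h1 : qd τ n x = (x - algebraMap F L c) * (x - algebraMap F L (τ - c)) := by
      have := congrArg (algebraMap F L) hc0
      simp only [map_add, map_sub, map_mul, map_pow, map_zero] at this
      unfold qd
      rw [map_sub]
      linear_combination this
    have n1 : x - algebraMap F L c ≠ 0 := fun h0 => hx ⟨c, (sub_eq_zero.1 h0).symm⟩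
    have n2 : x - algebraMap F L (τ - c) ≠ 0 := fun h0 => hx ⟨τ - c, (sub_eq_zero.1 h0).symm⟩
    rw [h1, h.mr _ _ _ n1 n2, h.lin, h.lin, add_zero]
  · have hq' : ∀ c : F, c ^ 2 - τ * c + n ≠ 0 := fun c hc0 => hq ⟨c, hc0⟩
    rcases irr_case h hc hg hx hR ha hU hτ hn hq' (nu0 hw) with h0 | ⟨r, t, ht, h1, h2⟩
    · exact h0 b
    · obtain ⟨e0, e1, y, he, hy⟩ := exists_split hc hx hR
      have hqL := hc.noroot hq'
      refine affine (τ := τ) (n := n) (fun b => β (x - algebraMap F L b) (qd τ n x)) (fun b => h.f1 hqL x b)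
        (fun b b' hbb => h.f2 hqL x b b' hbb) r t ht (- (w + w ^ 4)) (nu4 hw h5) (fun b => ?_) b
      have h3 := h2 (r + t * b)
      rw [split_case h hc hx hR he hy] at h3
      rw [eq_neg_of_add_eq_zero_left h3, h1 b, neg_smul]

/-- Step 6. -/
theorem step6 (h : Sy F β) (hc : Cy5 s) (hw : w ^ 4 + w ^ 3 + w ^ 2 + w + 1 = 0) (h5 : (5 : K) ≠ 0)
    (hg : ∀ a b, β (s a) (s b) = w • β a b) (x : L) (b a : F) :
    β (x - algebraMap F L b) (s x - algebraMap F L a) = 0 := by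
  by_cases hx : ∃ f : F, algebraMap F L f = x
  · obtain ⟨f, rfl⟩ := hx
    rw [← map_sub, h.fl]
  obtain ⟨W, hR⟩ := exists_W6 hc hx
  have hw5 : w ^ 5 = 1 := by linear_combination (w - 1) * hw
  have hw1 : w ≠ 1 := by
    rintro rfl
    apply h5
    linear_combination hw
  set x1 := s x with hx1
  set x4 := s (s (s x1)) with hx4
  have hs4 : s x4 = x := hc.s5 x
  have hx1F : ¬ ∃ f : F, algebraMap F L f = x1 := notF hx
  have hx4F : ¬ ∃ f : F, algebraMap F L f = x4 := notF (notF (notF hx1F))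
  have hA : ∀ b : F, β (x - algebraMap F L b) (W.A x) = 0 := by
    intro b
    have h1 := step5 h hc hw h5 hg hx hR (a0 := 1) (a1 := 0) (fun h => one_ne_zero h.1) b
    have h2 : W.ev 1 0 x = W.A x := by
      rw [W6.ev_eq, map_one, map_zero]
      ring
    rwa [h2] at h1
  have hs : ∀ b a : F, β (x - algebraMap F L b) (x1 - algebraMap F L a) +
      β (x - algebraMap F L b) (x4 - algebraMap F L a) = 0 := by
    intro b a
    have h1 := step5 h hc hw h5 hg hx hR (a0 := a) (a1 := 1) (fun h => one_ne_zero h.2) b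
    have n1 : x1 - algebraMap F L a ≠ 0 := fun h0 => hx1F ⟨a, (sub_eq_zero.1 h0).symm⟩
    have n4 : x4 - algebraMap F L a ≠ 0 := fun h0 => hx4F ⟨a, (sub_eq_zero.1 h0).symm⟩
    have h2 : W.ev a 1 x = W.A x * ((x1 - algebraMap F L a) * (x4 - algebraMap F L a)) := by
      rw [hR.ev, map_one]
      ring
    rw [h2, h.mr _ _ _ hR.A0 (mul_ne_zero n1 n4), hA, zero_add, h.mr _ _ _ n1 n4] at h1
    exact h1
  have h4 : ∀ b a : F, w • β (x - algebraMap F L b) (x4 - algebraMap F L a) =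
      - β (x - algebraMap F L a) (x1 - algebraMap F L b) := by
    intro b a
    rw [← hg, map_sub, map_sub, s.commutes, s.commutes, hs4, h.anti]
  have h6 : ∀ b a : F, w • β (x - algebraMap F L b) (x1 - algebraMap F L a) =
      β (x - algebraMap F L a) (x1 - algebraMap F L b) := by
    intro b a
    rw [eq_neg_of_add_eq_zero_left (hs b a), smul_neg, h4, neg_neg]
  have h7 : (w * w - 1) • β (x - algebraMap F L b) (x1 - algebraMap F L a) = 0 := by
    rw [sub_smul, mul_smul, h6 b a, h6 a b, one_smul, sub_self]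
  refine (smul_eq_zero.1 h7).resolve_left fun h8 => hw1 ?_
  have h9 : w ^ 2 = 1 := by linear_combination h8
  linear_combination hw5 - (w ^ 3 + w) * h9

end

end BRP.H90
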