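import Pool.Agent.Lib.MP_defcf3_al.BRP.H88.FiveStep
import Pool.Agent.Lib.MP_defcf3_al.BRP.H90.FiveD

/-! The heart for [F(ζ):F] = 5. -/

namespace BRP.H90

universe u

theorem five {ℓ : ℕ} [Fact ℓ.Prime] [Fact (Odd ℓ)] : BRP.HeartStatement.{u} ℓ 5 := by
  refine BRP.H88.five_of_stepSix ?_
  intro K F L Q _ _ _ _ _ _ hdim s hs5 hfix w hw _ _ h5 β h hg x a b
  exact step6 ⟨h.zl, h.zr, h.ml, h.mr, h.self, h.st, h.fl⟩ ⟨hdim, hs5, hfix⟩ hw h5 hg x a b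

end BRP.H90
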