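import Mathlib

/-! The affine lemma: a homomorphism R from the torus κ*/F*, κ = F(θ) quadratic, to a vector space over K, with
R(θ' - b) = λ R(θ - b) for all b in F and some θ' in κ, λ^4 not 1, is zero. Here f b = R(θ - b), θ² = τ θ - n,
and the relation is f (r + t b) = λ f b. -/

namespace BRP.H90

theorem affine {K F Q : Type*} [Field K] [Field F] [AddCommGroup Q] [Module K Q] {τ n : F}
    (f : F → Q) (h1 : ∀ b, f (τ - b) = - f b)
    (hm : ∀ b b' : F, b + b' ≠ τ → f ((b * b' - n) / (b + b' - τ)) = f b + f b')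
    (r t : F) (ht : t ≠ 0) (lam : K) (hl : lam ^ 4 ≠ 1) (hr : ∀ b, f (r + t * b) = lam • f b) :
    ∀ b, f b = 0 := by
  have hl2 : lam ^ 2 ≠ 1 := fun h => hl (by linear_combination (lam ^ 2 + 1) * h)
  by_cases hl0 : lam = 0
  · intro b
    have := hr ((b - r) / t)
    rw [hl0, zero_smul, mul_div_cancel₀ _ ht, add_sub_cancel] at this
    exact this
  -- it is enough to have a translation
  have fin : ∀ (τ0 : F) (m : K), m ^ 2 ≠ 1 → (∀ c, f (c + τ0) = m • f c) → ∀ b, f b = 0 := by
    intro τ0 m hm2 hτ b
    have h2 := hτ (τ - b - τ0)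
    rw [sub_add_cancel, show τ - b - τ0 = τ - (b + τ0) by ring, h1, h1, hτ, smul_neg, neg_inj, smul_smul] at h2
    have h3 : (1 - m ^ 2) • f b = 0 := by
      rw [sub_smul, one_smul, pow_two, ← h2, sub_self]
    exact (smul_eq_zero.1 h3).resolve_left (sub_ne_zero.2 hm2.symm)
  by_cases ht1 : t = 1
  · refine fin r lam hl2 fun c => ?_
    rw [← hr, ht1, one_mul, add_comm]
  · have ht1' : 1 - t ≠ 0 := sub_ne_zero.2 (Ne.symm ht1)
    obtain ⟨z, hz⟩ : ∃ z : F, r = (1 - t) * z := ⟨r / (1 - t), by field_simp⟩
    subst hz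
    -- the affine map b ↦ t² b + (1 - t)(τ - r)
    have key : ∀ b : F, f (t ^ 2 * b + (1 - t) * (τ - (1 - t) * z)) = f b := by
      intro b
      have hzz : (1 - t) * z + t * z = z := by ring
      have hfz := hr z
      rw [hzz] at hfz
      have hA : t ^ 2 * b + (1 - t) * (τ - (1 - t) * z) + z - τ = t * (z + ((1 - t) * z + t * b) - τ) := by ring
      by_cases hD : z + ((1 - t) * z + t * b) = τ
      · have h2 : f ((1 - t) * z + t * b) = - f z := by
          rw [← h1, ← hD]
          congr 1
          ring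
        rw [hr, hfz, ← smul_neg] at h2
        have h3 := smul_right_injective Q hl0 h2
        have h4 : t ^ 2 * b + (1 - t) * (τ - (1 - t) * z) = τ - z := by
          rw [hD] at hA
          linear_combination hA
        rw [h4, h1, h3]
      · have hD' : z + ((1 - t) * z + t * b) - τ ≠ 0 := sub_ne_zero.2 hD
        have hA' : z + (t ^ 2 * b + (1 - t) * (τ - (1 - t) * z)) ≠ τ := by
          intro h2
          have h3 : t * (z + ((1 - t) * z + t * b) - τ) = 0 := by
            rw [← hA]
            linear_combination h2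
          exact (mul_ne_zero ht hD') h3
        have h2 := hm _ _ hA'
        have h3 := hm _ _ hD
        set e : F := (z * (t ^ 2 * b + (1 - t) * (τ - (1 - t) * z)) - n) /
          (z + (t ^ 2 * b + (1 - t) * (τ - (1 - t) * z)) - τ) with he
        have h4 : (z * ((1 - t) * z + t * b) - n) / (z + ((1 - t) * z + t * b) - τ) = (1 - t) * z + t * e := by
          have hA2 : z + (t ^ 2 * b + (1 - t) * (τ - (1 - t) * z)) - τ = t * (z + ((1 - t) * z + t * b) - τ) := by
            ring
          have h7 : t * e * (z + ((1 - t) * z + t * b) - τ) = z * (t ^ 2 * b + (1 - t) * (τ - (1 - t) * z)) - n := by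
            rw [he, hA2]
            generalize z + ((1 - t) * z + t * b) - τ = D at hD'
            field_simp
          rw [div_eq_iff hD', add_mul, h7]
          ring
        rw [h4, hr, hr, hfz] at h3
        rw [hfz.symm] at h3
        have h5 : lam • f e = lam • (f z + f b) := by
          rw [h3, smul_add, ← hfz]
        have h6 := smul_right_injective Q hl0 h5
        rw [h2] at h6
        exact add_left_cancel h6
    refine fin (2 * ((1 - t) * z) - (1 - t) * τ) (lam ^ 2) (by rwa [← pow_mul]) fun c => ?_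
    obtain ⟨b, hb⟩ : ∃ b : F, c = t ^ 2 * b + (1 - t) * (τ - (1 - t) * z) :=
      ⟨(c - (1 - t) * (τ - (1 - t) * z)) / t ^ 2, by field_simp; ring⟩
    rw [hb, key b, show t ^ 2 * b + (1 - t) * (τ - (1 - t) * z) + (2 * ((1 - t) * z) - (1 - t) * τ) =
      (1 - t) * z + t * ((1 - t) * z + t * b) by ring, hr, hr, smul_smul, pow_two]

end BRP.H90
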