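import Pool.Agent.Lib.MP_defcf3_al.BRP.H90.Sy
import Pool.Agent.Lib.MP_defcf3_al.BRP.H90.Affine

/-! Cyclic extensions of degree 5: elementary facts, and the symmetric (2,2)-form. -/

namespace BRP.H90

universe u v w

open Polynomial

/-- L is a cyclic extension of F of degree 5, s is a generator. -/
structure Cy5 {F : Type u} {L : Type v} [Field F] [Field L] [Algebra F L] (s : L ≃ₐ[F] L) : Prop where
  dim : Module.finrank F L = 5
  s5 : ∀ x, s (s (s (s (s x)))) = x
  fix : ∀ x, s x = x → ∃ f : F, algebraMap F L f = x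

namespace Cy5

variable {F : Type u} {L : Type v} [Field F] [Field L] [Algebra F L] {s : L ≃ₐ[F] L}

theorem ne14 (h : Cy5 s) {x : L} (hx : ¬ ∃ f : F, algebraMap F L f = x) : s x ≠ s (s (s (s x))) := by
  intro h1
  apply hx
  have h2 : x = s (s (s x)) := s.injective h1
  have h3 : s (s (s (s (s (s x))))) = x := by rw [← h2, ← h2]
  rw [h.s5] at h3
  exact h.fix x h3

theorem noroot (h : Cy5 s) {τ n : F} (hq : ∀ c : F, c ^ 2 - τ * c + n ≠ 0) (y : L) : qd τ n y ≠ 0 := by
  intro h0
  have h0' := h0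
  unfold qd at h0
  have h1 : (s y) ^ 2 - algebraMap F L τ * s y + algebraMap F L n = 0 := by
    have := congrArg s h0
    rw [map_zero, map_add, map_sub, map_mul, map_pow, s.commutes, s.commutes] at this
    exact this
  have h2 : (s y - y) * (s y + y - algebraMap F L τ) = 0 := by linear_combination h1 - h0
  have h3 : s y = y := by
    rcases mul_eq_zero.1 h2 with h3 | h3
    · exact sub_eq_zero.1 h3
    · have h4 : s y = algebraMap F L τ - y := by linear_combination h3
      have h5 : s (s y) = y := by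
        conv_lhs => rw [h4]
        rw [map_sub, s.commutes, h4]
        ring
      have h6 := h.s5 y
      rwa [h5, h5] at h6
  obtain ⟨c, hc⟩ := h.fix y h3
  apply hq c
  have : algebraMap F L (c ^ 2 - τ * c + n) = 0 := by
    rw [map_add, map_sub, map_mul, map_pow, hc]
    exact h0
  exact (map_eq_zero _).1 this

theorem poly (h : Cy5 s) {x : L} (hx : ¬ ∃ f : F, algebraMap F L f = x) :
    (minpoly F x).natDegree = 5 := by
  have : FiniteDimensional F L := FiniteDimensional.of_finrank_pos (by rw [h.dim]; norm_num)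
  have h1 : (minpoly F x).natDegree ∣ 5 := h.dim ▸ minpoly.degree_dvd (Algebra.IsIntegral.isIntegral x)
  have h2 : (minpoly F x).natDegree ≠ 1 := fun h2 => hx (by
    have := minpoly.natDegree_eq_one_iff.1 h2
    exact this)
  rcases (Nat.dvd_prime (by norm_num : Nat.Prime 5)).1 h1 with h3 | h3
  · exact absurd h3 h2
  · exact h3

theorem poly_zero (h : Cy5 s) {x : L} (hx : ¬ ∃ f : F, algebraMap F L f = x) {P : F[X]} (hP : P.natDegree ≤ 4)
    (h0 : aeval x P = 0) : P = 0 := by
  by_contra hne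
  have h1 := minpoly.dvd F x h0
  have h2 := Polynomial.natDegree_le_of_dvd h1 hne
  rw [h.poly hx] at h2
  omega

/-- 1, x, x^2 are independent -/
theorem quad (h : Cy5 s) {x : L} (hx : ¬ ∃ f : F, algebraMap F L f = x) {a b c : F}
    (h0 : algebraMap F L a * x ^ 2 + algebraMap F L b * x + algebraMap F L c = 0) : a = 0 ∧ b = 0 ∧ c = 0 := by
  have h1 : (C a * X ^ 2 + C b * X + C c : F[X]) = 0 := by
    refine h.poly_zero hx ?_ ?_
    · exact Polynomial.natDegree_quadratic_le.trans (by norm_num)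
    · simpa using h0
  refine ⟨?_, ?_, ?_⟩
  · have := congrArg (fun p => coeff p 2) h1
    simpa [coeff_X, coeff_C] using this
  · have := congrArg (fun p => coeff p 1) h1
    simpa [coeff_X, coeff_C] using this
  · have := congrArg (fun p => coeff p 0) h1
    simpa [coeff_X, coeff_C] using this

theorem six (h : Cy5 s) (v0 v1 v2 v3 v4 v5 : L) : ∃ g0 g1 g2 g3 g4 g5 : F,
    ¬ (g0 = 0 ∧ g1 = 0 ∧ g2 = 0 ∧ g3 = 0 ∧ g4 = 0 ∧ g5 = 0) ∧
    algebraMap F L g0 * v0 + algebraMap F L g1 * v1 + algebraMap F L g2 * v2 + algebraMap F L g3 * v3 +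
      algebraMap F L g4 * v4 + algebraMap F L g5 * v5 = 0 := by
  have : FiniteDimensional F L := FiniteDimensional.of_finrank_pos (by rw [h.dim]; norm_num)
  have h1 : ¬ LinearIndependent F ![v0, v1, v2, v3, v4, v5] := by
    intro h1
    have := h1.fintype_card_le_finrank
    rw [h.dim, Fintype.card_fin] at this
    omega
  obtain ⟨g, hg, i, hi⟩ := Fintype.not_linearIndependent_iff.1 h1
  refine ⟨g 0, g 1, g 2, g 3, g 4, g 5, ?_, ?_⟩
  · rintro ⟨h0, h1, h2, h3, h4, h5⟩
    apply hi
    fin_cases i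
    · exact h0
    · exact h1
    · exact h2
    · exact h3
    · exact h4
    · exact h5
  · rw [Fin.sum_univ_six] at hg
    simpa [Algebra.smul_def] using hg

end Cy5

/-- The symmetric (2,2)-form with coefficients w0, ..., w5. -/
structure W6 (F : Type u) where
  (w0 w1 w2 w3 w4 w5 : F)

namespace W6

variable {F : Type u} {L : Type v} [Field F] [Field L] [Algebra F L] (W : W6 F)

def U (a0 a1 : F) : F := W.w5 * a0 ^ 2 + W.w4 * a0 * a1 + W.w3 * a1 ^ 2
def V (a0 a1 : F) : F := W.w4 * a0 ^ 2 + W.w2 * a0 * a1 + W.w1 * a1 ^ 2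
def T (a0 a1 : F) : F := W.w3 * a0 ^ 2 + W.w1 * a0 * a1 + W.w0 * a1 ^ 2
def A (x : L) : L := algebraMap F L W.w5 * x ^ 2 + algebraMap F L W.w4 * x + algebraMap F L W.w3
def B (x : L) : L := algebraMap F L W.w4 * x ^ 2 + algebraMap F L W.w2 * x + algebraMap F L W.w1
def C (x : L) : L := algebraMap F L W.w3 * x ^ 2 + algebraMap F L W.w1 * x + algebraMap F L W.w0
/-- W(a, x) -/
def ev (a0 a1 : F) (x : L) : L :=
  algebraMap F L (W.U a0 a1) * x ^ 2 + algebraMap F L (W.V a0 a1) * x + algebraMap F L (W.T a0 a1)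

theorem ev_eq (a0 a1 : F) (x : L) : W.ev a0 a1 x =
    W.A x * algebraMap F L a0 ^ 2 + W.B x * algebraMap F L a0 * algebraMap F L a1 +
      W.C x * algebraMap F L a1 ^ 2 := by
  unfold ev A B C U V T
  simp only [map_add, map_mul, map_pow]
  ring

/-- W(x, Y) = A(x) (Y - y)(Y - y') -/
structure Rt (x y y' : L) : Prop where
  A0 : W.A x ≠ 0
  sum : W.A x * (y + y') = - W.B x
  prod : W.A x * (y * y') = W.C x

variable {W}

theorem Rt.ev {x y y' : L} (h : W.Rt x y y') (a0 a1 : F) : W.ev a0 a1 x =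
    W.A x * (algebraMap F L a0 - algebraMap F L a1 * y) * (algebraMap F L a0 - algebraMap F L a1 * y') := by
  rw [ev_eq]
  linear_combination (algebraMap F L a0 * algebraMap F L a1) * h.sum - (algebraMap F L a1 ^ 2) * h.prod

theorem A_map (s : L ≃ₐ[F] L) (x : L) : s (W.A x) = W.A (s x) := by
  unfold A
  simp only [map_add, map_mul, map_pow, s.commutes]

theorem B_map (s : L ≃ₐ[F] L) (x : L) : s (W.B x) = W.B (s x) := by
  unfold B
  simp only [map_add, map_mul, map_pow, s.commutes]

theorem C_map (s : L ≃ₐ[F] L) (x : L) : s (W.C x) = W.C (s x) := by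
  unfold C
  simp only [map_add, map_mul, map_pow, s.commutes]

theorem Rt.map (s : L ≃ₐ[F] L) {x y y' : L} (h : W.Rt x y y') : W.Rt (s x) (s y) (s y') where
  A0 := by
    rw [← A_map]
    exact (map_ne_zero s).2 h.A0
  sum := by
    rw [← A_map, ← B_map, ← map_add, ← map_mul, h.sum, map_neg]
  prod := by
    rw [← A_map, ← C_map, ← map_mul, ← map_mul, h.prod]

end W6

/-- Existence of the form. -/
theorem exists_W6 {F : Type u} {L : Type v} [Field F] [Field L] [Algebra F L] {s : L ≃ₐ[F] L} (h : Cy5 s) {x : L}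
    (hx : ¬ ∃ f : F, algebraMap F L f = x) : ∃ W : W6 F, W.Rt x (s x) (s (s (s (s x)))) := by
  set y := s x with hy
  set y' := s (s (s y)) with hy'
  have hs' : s y' = x := by rw [hy', hy, h.s5]
  obtain ⟨w5, w4, w3, w2, w1, w0, hne, hw⟩ := h.six (x ^ 2 * y ^ 2) (x * y * (x + y)) (x ^ 2 + y ^ 2) (x * y) (x + y) 1
  set W : W6 F := ⟨w0, w1, w2, w3, w4, w5⟩ with hW
  have e1 : W.A x * y ^ 2 + W.B x * y + W.C x = 0 := by
    simp only [hW, W6.A, W6.B, W6.C]
    linear_combination hw
  -- the same relation at y' = s^(-1) x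
  have e2 : W.A x * y' ^ 2 + W.B x * y' + W.C x = 0 := by
    apply s.injective
    rw [map_zero]
    simp only [hW, W6.A, W6.B, W6.C, map_add, map_mul, map_pow, s.commutes, hs', ← hy]
    linear_combination hw
  have hne2 : y ≠ y' := h.ne14 hx
  have e3 : W.A x * (y + y') + W.B x = 0 := by
    have : (y - y') * (W.A x * (y + y') + W.B x) = 0 := by linear_combination e1 - e2
    exact (mul_eq_zero.1 this).resolve_left (sub_ne_zero.2 hne2)
  refine ⟨W, ?_, by linear_combination e3, by linear_combination y * e3 - e1⟩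
  intro hA
  obtain ⟨h5, h4, h3⟩ := h.quad hx hA
  simp only [hW] at h5 h4 h3
  rw [hA, zero_mul, zero_add] at e3
  obtain ⟨-, h2, h1⟩ := h.quad hx e3
  simp only [hW] at h2 h1
  rw [hA, zero_mul, zero_add, e3, zero_mul, zero_add] at e1
  obtain ⟨-, -, h0⟩ := h.quad hx e1
  simp only [hW] at h0
  exact hne ⟨h5, h4, h3, h2, h1, h0⟩

end BRP.H90
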