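import Pool.Agent.Lib.MP_defcf3_al.BRP.H90.FiveA

/-! The form W at a point a of the projective line over F: the irreducible case. -/

namespace BRP.H90

universe u v w

/-- A binary quadratic form vanishing at (a0 : a1) is divisible by a1 X - a0. -/
theorem div_form {F : Type u} [Field F] {a0 a1 u v t : F} (ha : ¬ (a0 = 0 ∧ a1 = 0))
    (h : u * a0 ^ 2 + v * a0 * a1 + t * a1 ^ 2 = 0) :
    ∃ m k : F, u = a1 * m ∧ v = a1 * k - a0 * m ∧ t = - (a0 * k) := by
  by_cases h1 : a1 = 0
  · have h0 : a0 ≠ 0 := fun h0 => ha ⟨h0, h1⟩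
    have hu : u = 0 := by
      rw [h1] at h
      have : u * a0 ^ 2 = 0 := by linear_combination h
      exact (mul_eq_zero.1 this).resolve_right (pow_ne_zero 2 h0)
    refine ⟨- v / a0, - t / a0, ?_, ?_, ?_⟩
    · rw [hu, h1, zero_mul]
    · rw [h1, zero_mul, zero_sub, mul_div_cancel₀ _ h0, neg_neg]
    · rw [mul_div_cancel₀ _ h0, neg_neg]
  · refine ⟨u / a1, (v + a0 * (u / a1)) / a1, ?_, ?_, ?_⟩
    · field_simp
    · field_simp
      ring
    · field_simp
      linear_combination h

section

variable {F : Type u} {L : Type v} [Field F] [Field L] [Algebra F L] {s : L ≃ₐ[F] L}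

theorem lin_ne {x : L} (hx : ¬ ∃ f : F, algebraMap F L f = x) {a b : F} (hab : ¬ (a = 0 ∧ b = 0)) :
    algebraMap F L a * x + algebraMap F L b ≠ 0 := by
  intro h0
  by_cases ha : a = 0
  · rw [ha, map_zero, zero_mul, zero_add] at h0
    exact hab ⟨ha, (map_eq_zero _).1 h0⟩
  · apply hx
    have haL : algebraMap F L a ≠ 0 := by simpa using ha
    refine ⟨- b / a, ?_⟩
    rw [map_div₀, map_neg, div_eq_iff haL]
    linear_combination -h0

theorem prod_fix (hc : Cy5 s) (x : L) (a0 a1 : F) :
    ∃ f : F, algebraMap F L f = (algebraMap F L a0 - algebraMap F L a1 * x) *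
      ((algebraMap F L a0 - algebraMap F L a1 * s x) * (algebraMap F L a0 - algebraMap F L a1 * s (s x)) *
      (algebraMap F L a0 - algebraMap F L a1 * s (s (s x))) *
      (algebraMap F L a0 - algebraMap F L a1 * s (s (s (s x))))) := by
  refine hc.fix _ ?_
  simp only [map_mul, map_sub, s.commutes, hc.s5]
  ring

variable {K : Type*} {Q : Type w} [Field K] [AddCommGroup Q] [Module K Q] {β : L → L → Q} {w : K}

theorem gal4 (hc : Cy5 s) (hg : ∀ a b, β (s a) (s b) = w • β a b) (a b : L) :
    β (s (s (s (s a)))) (s (s (s (s b)))) = w ^ 4 • β a b := by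
  rw [hg, hg, hg, hg, smul_smul, smul_smul, smul_smul]
  congr 1
  ring

theorem irr_case (h : Sy F β) (hc : Cy5 s) (hg : ∀ a b, β (s a) (s b) = w • β a b) {x : L}
    (hx : ¬ ∃ f : F, algebraMap F L f = x) {W : W6 F} (hR : W.Rt x (s x) (s (s (s (s x))))) {a0 a1 : F}
    (ha : ¬ (a0 = 0 ∧ a1 = 0)) {τ n : F} (hU : W.U a0 a1 ≠ 0) (hτ : W.V a0 a1 = - (τ * W.U a0 a1))
    (hn : W.T a0 a1 = n * W.U a0 a1) (hq : ∀ c : F, c ^ 2 - τ * c + n ≠ 0) (hw0 : w + w ^ 4 ≠ 0) :
    (∀ b : F, β (x - algebraMap F L b) (qd τ n x) = 0) ∨ ∃ r t : F, t ≠ 0 ∧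
      (∀ b : F, β (x - algebraMap F L (r + t * b)) (qd (2 * r + t * τ) (r ^ 2 + r * t * τ + t ^ 2 * n) x) =
        (w + w ^ 4) • β (x - algebraMap F L b) (qd τ n x)) ∧
      ∀ b : F, β (x - algebraMap F L b) (qd τ n x) +
        β (x - algebraMap F L b) (qd (2 * r + t * τ) (r ^ 2 + r * t * τ + t ^ 2 * n) x) =
        β (x - algebraMap F L b) (W.A x ^ 3 * W.A (s x) * W.A (s (s (s (s x))))) := by
  have hqL := hc.noroot hq
  -- the sum of the two symbols at s x and s^4 x
  have hsum : ∀ b : F, β (s x - algebraMap F L b) (qd τ n (s x)) +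
      β (s (s (s (s x))) - algebraMap F L b) (qd τ n (s (s (s (s x))))) =
      (w + w ^ 4) • β (x - algebraMap F L b) (qd τ n x) := by
    intro b
    have e1 : β (s x - algebraMap F L b) (qd τ n (s x)) = w • β (x - algebraMap F L b) (qd τ n x) := by
      rw [← hg]
      congr 1
      · rw [map_sub, s.commutes]
      · unfold qd
        simp only [map_add, map_sub, map_mul, map_pow, s.commutes]
    have e2 : β (s (s (s (s x))) - algebraMap F L b) (qd τ n (s (s (s (s x))))) =
        w ^ 4 • β (x - algebraMap F L b) (qd τ n x) := by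
      rw [← gal4 hc hg]
      congr 1
      · simp only [map_sub, s.commutes]
      · unfold qd
        simp only [map_add, map_sub, map_mul, map_pow, s.commutes]
    rw [e1, e2, add_smul]
  have zero_of : (∀ b : F, β (s x - algebraMap F L b) (qd τ n (s x)) +
      β (s (s (s (s x))) - algebraMap F L b) (qd τ n (s (s (s (s x))))) = 0) →
      ∀ b : F, β (x - algebraMap F L b) (qd τ n x) = 0 := by
    intro h0 b
    have h1 := hsum b
    rw [h0 b] at h1
    exact (smul_eq_zero.1 h1.symm).resolve_left hw0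
  set x1 := s x with hx1
  set x2 := s x1 with hx2
  set x3 := s x2 with hx3
  set x4 := s x3 with hx4
  have hs4 : s x4 = x := hc.s5 x
  -- the quotients
  obtain ⟨α2, δ2, hu2, hv2, ht2⟩ := div_form (u := W.w4 + τ * W.w5) (v := W.w2 + τ * W.w4) (t := W.w1 + τ * W.w3) ha (by
    unfold W6.V W6.U at hτ
    linear_combination hτ)
  obtain ⟨α1, δ1, hu1, hv1, ht1⟩ := div_form (u := W.w3 - n * W.w5) (v := W.w1 - n * W.w4) (t := W.w0 - n * W.w3) ha (by
    unfold W6.T W6.U at hn
    linear_combination hn)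
  have hA0 := hR.A0
  set P : L := algebraMap F L a1 * x - algebraMap F L a0 with hP
  have hP0 : P ≠ 0 := by
    have := lin_ne hx (a := a1) (b := -a0) (fun h0 => ha ⟨neg_eq_zero.1 h0.2, h0.1⟩)
    rwa [map_neg, ← sub_eq_add_neg] at this
  -- the two coordinates of (II)
  have E1 : W.A x * (algebraMap F L τ - x1 - x4) = P * (algebraMap F L α2 * x + algebraMap F L δ2) := by
    have h1 := hR.sum
    have h2 : W.B x + algebraMap F L τ * W.A x = P * (algebraMap F L α2 * x + algebraMap F L δ2) := by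
      have g1 := congrArg (algebraMap F L) hu2
      have g2 := congrArg (algebraMap F L) hv2
      have g3 := congrArg (algebraMap F L) ht2
      simp only [map_add, map_sub, map_mul, map_neg] at g1 g2 g3
      unfold W6.B W6.A
      rw [hP]
      linear_combination x ^ 2 * g1 + x * g2 + g3
    linear_combination h2 - h1
  have E2 : W.A x * (x1 * x4 - algebraMap F L n) = P * (algebraMap F L α1 * x + algebraMap F L δ1) := by
    have h1 := hR.prod
    have h2 : W.C x - algebraMap F L n * W.A x = P * (algebraMap F L α1 * x + algebraMap F L δ1) := by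
      have g1 := congrArg (algebraMap F L) hu1
      have g2 := congrArg (algebraMap F L) hv1
      have g3 := congrArg (algebraMap F L) ht1
      simp only [map_add, map_sub, map_mul, map_neg] at g1 g2 g3
      unfold W6.C W6.A
      rw [hP]
      linear_combination x ^ 2 * g1 + x * g2 + g3
    linear_combination h2 + h1
  have E1' : algebraMap F L τ - x1 - x4 = P / W.A x * (algebraMap F L α2 * x + algebraMap F L δ2) := by
    rw [div_mul_eq_mul_div, ← E1, mul_div_cancel_left₀ _ hA0]
  have E2' : x1 * x4 - algebraMap F L n = P / W.A x * (algebraMap F L α1 * x + algebraMap F L δ1) := by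
    rw [div_mul_eq_mul_div, ← E2, mul_div_cancel_left₀ _ hA0]
  have hρ : P / W.A x ≠ 0 := div_ne_zero hP0 hA0
  by_cases hα : α1 = 0 ∧ α2 = 0
  · left
    refine zero_of fun b => ?_
    refine h.kl0 hqL b δ1 δ2 hρ ?_ ?_
    · rw [E1', hα.2, map_zero, zero_mul, zero_add]
    · rw [E2', hα.1, map_zero, zero_mul, zero_add]
  -- the norm of α
  have hN : α1 ^ 2 + τ * α1 * α2 + n * α2 ^ 2 ≠ 0 := by
    intro h0
    by_cases h2 : α2 = 0
    · apply hα
      rw [h2] at h0
      have : α1 ^ 2 = 0 := by linear_combination h0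
      exact ⟨pow_eq_zero_iff (two_ne_zero) |>.1 this, h2⟩
    · apply hq (- α1 / α2)
      have : (α2 ^ 2) * ((- α1 / α2) ^ 2 - τ * (- α1 / α2) + n) = 0 := by
        field_simp
        linear_combination h0
      exact (mul_eq_zero.1 this).resolve_left (pow_ne_zero 2 h2)
  set N := α1 ^ 2 + τ * α1 * α2 + n * α2 ^ 2 with hNd
  obtain ⟨r, hr⟩ : ∃ r, r * N = - (δ1 * (α1 + α2 * τ) + δ2 * α2 * n) :=
    ⟨- (δ1 * (α1 + α2 * τ) + δ2 * α2 * n) / N, div_mul_cancel₀ _ hN⟩
  obtain ⟨t, ht⟩ : ∃ t, t * N = - (δ2 * α1 - δ1 * α2) := ⟨- (δ2 * α1 - δ1 * α2) / N, div_mul_cancel₀ _ hN⟩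
  -- α (r + t θ) = - δ
  have d1 : δ1 = - (α1 * r - α2 * t * n) := by
    have : N * (δ1 + (α1 * r - α2 * t * n)) = 0 := by
      rw [mul_add, mul_sub, show N * (α1 * r) = α1 * (r * N) by ring, show N * (α2 * t * n) = α2 * n * (t * N) by ring,
        hr, ht, hNd]
      ring
    have := (mul_eq_zero.1 this).resolve_left hN
    linear_combination this
  have d2 : δ2 = - (α2 * r + α1 * t + α2 * t * τ) := by
    have : N * (δ2 + (α2 * r + α1 * t + α2 * t * τ)) = 0 := by
      rw [mul_add, mul_add, mul_add, show N * (α2 * r) = α2 * (r * N) by ring,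
        show N * (α1 * t) = α1 * (t * N) by ring, show N * (α2 * t * τ) = α2 * τ * (t * N) by ring,
        hr, ht, hNd]
      ring
    have := (mul_eq_zero.1 this).resolve_left hN
    linear_combination this
  have D1 := congrArg (algebraMap F L) d1
  have D2 := congrArg (algebraMap F L) d2
  simp only [map_add, map_sub, map_mul, map_neg] at D1 D2
  by_cases ht0 : t = 0
  · left
    refine zero_of fun b => ?_
    have hxr : x - algebraMap F L r ≠ 0 := fun h0 => hx ⟨r, (sub_eq_zero.1 h0).symm⟩
    refine h.kl0 hqL b α1 α2 (ρ := P / W.A x * (x - algebraMap F L r)) (mul_ne_zero hρ hxr) ?_ ?_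
    · rw [E1', D2, ht0, map_zero]
      ring
    · rw [E2', D1, ht0, map_zero]
      ring
  right
  refine ⟨r, t, ht0, fun b => ?_, fun b => ?_⟩
  · rw [← hsum b]
    refine (h.kl hqL b α1 α2 r t ht0 hρ ?_ ?_).symm
    · rw [E1', D2]
      simp only [map_add, map_mul]
      ring
    · rw [E2', D1]
      simp only [map_mul]
      ring
  · -- norms
    have hev : ∀ y : L, W.ev a0 a1 y = algebraMap F L (W.U a0 a1) * qd τ n y := by
      intro y
      unfold W6.ev qd
      rw [hτ, hn]
      simp only [map_neg, map_mul]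
      ring
    have I0 := hR.ev a0 a1
    have I1 := (hR.map s).ev a0 a1
    have I4 := (((hR.map s).map s).map s).map s |>.ev a0 a1
    rw [← hx1, ← hx2, hs4] at I1
    rw [← hx1, ← hx2, ← hx3, ← hx4, hs4, ← hx1, ← hx2, ← hx3] at I4
    rw [hev] at I0 I1 I4
    set u : L := algebraMap F L (W.U a0 a1) with hu
    have hu0 : u ≠ 0 := by
      rw [hu]
      simpa using hU
    set q' : L := qd (2 * r + t * τ) (r ^ 2 + r * t * τ + t ^ 2 * n) x with hq'
    have hNq : W.A x ^ 2 * (qd τ n x1 * qd τ n x4) = P ^ 2 * (algebraMap F L N * q') := by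
      have e1 : qd τ n x1 * qd τ n x4 = (x1 * x4 - algebraMap F L n) ^ 2 +
          algebraMap F L τ * (x1 * x4 - algebraMap F L n) * (algebraMap F L τ - x1 - x4) +
          algebraMap F L n * (algebraMap F L τ - x1 - x4) ^ 2 := by
        unfold qd
        ring
      have e2 : W.A x ^ 2 * (qd τ n x1 * qd τ n x4) = (W.A x * (x1 * x4 - algebraMap F L n)) ^ 2 +
          algebraMap F L τ * (W.A x * (x1 * x4 - algebraMap F L n)) * (W.A x * (algebraMap F L τ - x1 - x4)) +
          algebraMap F L n * (W.A x * (algebraMap F L τ - x1 - x4)) ^ 2 := by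
        rw [e1]
        ring
      rw [e2, E1, E2, D1, D2, hq', hNd]
      unfold qd
      simp only [map_add, map_mul, map_pow, map_ofNat]
      ring
    have hPa : (algebraMap F L a0 - algebraMap F L a1 * x) ^ 2 = P ^ 2 := by
      rw [hP]
      ring
    -- A^2 A1 A4 (a0 - a1 x2) (a0 - a1 x3) = u^2 N q'
    have hM : W.A x ^ 2 * W.A x1 * W.A x4 * ((algebraMap F L a0 - algebraMap F L a1 * x2) *
        (algebraMap F L a0 - algebraMap F L a1 * x3)) = u ^ 2 * (algebraMap F L N * q') := by
      apply mul_left_cancel₀ (pow_ne_zero 2 hP0)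
      have e3 : P ^ 2 * (u ^ 2 * (algebraMap F L N * q')) = W.A x ^ 2 * ((u * qd τ n x1) * (u * qd τ n x4)) := by
        linear_combination (- u ^ 2) * hNq
      rw [e3, I1, I4, ← hPa]
      ring
    obtain ⟨f0, hf0⟩ := prod_fix hc x a0 a1
    rw [← hx1, ← hx2, ← hx3, ← hx4] at hf0
    have hall : W.A x ^ 3 * W.A x1 * W.A x4 * ((algebraMap F L a0 - algebraMap F L a1 * x1) *
        (algebraMap F L a0 - algebraMap F L a1 * x2) * (algebraMap F L a0 - algebraMap F L a1 * x3) *
        (algebraMap F L a0 - algebraMap F L a1 * x4)) = algebraMap F L (W.U a0 a1 ^ 3 * N) * (qd τ n x * q') := by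
      rw [map_mul, map_pow, ← hu]
      linear_combination (W.A x * (algebraMap F L a0 - algebraMap F L a1 * x1) *
        (algebraMap F L a0 - algebraMap F L a1 * x4)) * hM - (u ^ 2 * (algebraMap F L N * q')) * I0
    have hq0 : q' ≠ 0 := by
      intro h0
      rw [h0, mul_zero, mul_zero] at hNq
      exact mul_ne_zero (pow_ne_zero 2 hA0) (mul_ne_zero (hqL x1) (hqL x4)) hNq
    have hQ := hqL x
    have hprod0 : (algebraMap F L a0 - algebraMap F L a1 * x1) *
        (algebraMap F L a0 - algebraMap F L a1 * x2) * (algebraMap F L a0 - algebraMap F L a1 * x3) *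
        (algebraMap F L a0 - algebraMap F L a1 * x4) ≠ 0 := by
      intro h0
      rw [h0, mul_zero] at hall
      have hUN : algebraMap F L (W.U a0 a1 ^ 3 * N) ≠ 0 := by
        simpa using mul_ne_zero (pow_ne_zero 3 hU) hN
      exact mul_ne_zero hUN (mul_ne_zero hQ hq0) hall.symm
    have hA10 : W.A x ^ 3 * W.A x1 * W.A x4 ≠ 0 := by
      intro h0
      rw [h0, zero_mul] at hall
      have hUN : algebraMap F L (W.U a0 a1 ^ 3 * N) ≠ 0 := by
        simpa using mul_ne_zero (pow_ne_zero 3 hU) hN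
      exact mul_ne_zero hUN (mul_ne_zero hQ hq0) hall.symm
    have hxx0 : algebraMap F L a0 - algebraMap F L a1 * x ≠ 0 := by
      intro h0
      apply hP0
      rw [hP]
      linear_combination -h0
    have k1 := h.mr (x - algebraMap F L b) _ _ hA10 hprod0
    rw [hall, h.sr _ (mul_ne_zero (pow_ne_zero 3 hU) hN), h.mr _ _ _ hQ hq0] at k1
    have k2 := h.mr (x - algebraMap F L b) _ _ hxx0 hprod0
    rw [← hf0, h.fr] at k2
    have k3 : β (x - algebraMap F L b) (algebraMap F L a0 - algebraMap F L a1 * x) = 0 := by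
      have := h.linlin x 1 (-b) (-a1) a0
      rw [map_one, one_mul, map_neg, map_neg, ← sub_eq_add_neg, neg_mul] at this
      rwa [show - (algebraMap F L a1 * x) + algebraMap F L a0 = algebraMap F L a0 - algebraMap F L a1 * x by ring]
        at this
    rw [k3, zero_add] at k2
    rw [← k2, add_zero] at k1
    exact k1

end

end BRP.H90
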