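import Pool.Agent.Lib.MP_defcf3_al.BRP.H90.FiveB

/-! The form W at a point where it splits; existence of such a point; the symbols of conjugates. -/

namespace BRP.H90

universe u v w

open Polynomial

/-- A form with a root splits. -/
theorem split_form {F : Type u} [Field F] {u v t y : F} (h : y ^ 2 + v * y + u * t = 0) :
    ∃ p1 q1 p2 q2 : F, u = p1 * p2 ∧ v = - (p1 * q2 + q1 * p2) ∧ t = q1 * q2 := by
  by_cases hu : u = 0
  · refine ⟨0, -1, v, -t, ?_, ?_, ?_⟩
    · rw [hu, zero_mul]
    · ring
    · ring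
  · refine ⟨1, y / u, u, - v - y, ?_, ?_, ?_⟩
    · ring
    · field_simp
      ring
    · field_simp
      linear_combination h

section

variable {F : Type u} {L : Type v} [Field F] [Field L] [Algebra F L] {s : L ≃ₐ[F] L}
variable {K : Type*} {Q : Type w} [Field K] [AddCommGroup Q] [Module K Q] {β : L → L → Q} {w : K}

theorem notF {x : L} (hx : ¬ ∃ f : F, algebraMap F L f = x) : ¬ ∃ f : F, algebraMap F L f = s x := by
  rintro ⟨f, hf⟩
  apply hx
  refine ⟨f, s.injective ?_⟩
  rw [s.commutes, hf]

theorem Sy.xlin (h : Sy F β) (x : L) (b c c' : F) :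
    β (x - algebraMap F L b) (algebraMap F L c * x + algebraMap F L c') = 0 := by
  have := h.linlin x 1 (-b) c c'
  rwa [map_one, one_mul, map_neg, ← sub_eq_add_neg] at this

/-- E = 0 if W splits somewhere. -/
theorem split_case (h : Sy F β) (hc : Cy5 s) {x : L}
    (hx : ¬ ∃ f : F, algebraMap F L f = x) {W : W6 F} (hR : W.Rt x (s x) (s (s (s (s x))))) {a0 a1 y : F}
    (ha : ¬ (a0 = 0 ∧ a1 = 0)) (hy : y ^ 2 + W.V a0 a1 * y + W.U a0 a1 * W.T a0 a1 = 0) (b : F) :
    β (x - algebraMap F L b) (W.A x ^ 3 * W.A (s x) * W.A (s (s (s (s x))))) = 0 := by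
  obtain ⟨p1, q1, p2, q2, hU, hV, hT⟩ := split_form hy
  -- the other roots
  obtain ⟨m1, k1, hm1⟩ : ∃ m k : F, W.U q1 p1 = a1 * m ∧ W.V q1 p1 = a1 * k - a0 * m ∧ W.T q1 p1 = - (a0 * k) := by
    refine div_form ha ?_
    have e : W.U q1 p1 * a0 ^ 2 + W.V q1 p1 * a0 * a1 + W.T q1 p1 * a1 ^ 2 =
        W.U a0 a1 * q1 ^ 2 + W.V a0 a1 * q1 * p1 + W.T a0 a1 * p1 ^ 2 := by
      unfold W6.U W6.V W6.T
      ring
    rw [e, hU, hV, hT]
    ring
  obtain ⟨m2, k2, hm2⟩ : ∃ m k : F, W.U q2 p2 = a1 * m ∧ W.V q2 p2 = a1 * k - a0 * m ∧ W.T q2 p2 = - (a0 * k) := by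
    refine div_form ha ?_
    have e : W.U q2 p2 * a0 ^ 2 + W.V q2 p2 * a0 * a1 + W.T q2 p2 * a1 ^ 2 =
        W.U a0 a1 * q2 ^ 2 + W.V a0 a1 * q2 * p2 + W.T a0 a1 * p2 ^ 2 := by
      unfold W6.U W6.V W6.T
      ring
    rw [e, hU, hV, hT]
    ring
  have hA0 := hR.A0
  set x1 := s x with hx1
  set x2 := s x1 with hx2
  set x3 := s x2 with hx3
  set x4 := s x3 with hx4
  have hs4 : s x4 = x := hc.s5 x
  set P : L := algebraMap F L a1 * x - algebraMap F L a0 with hP
  have hP0 : P ≠ 0 := by
    have := lin_ne hx (a := a1) (b := -a0) (fun h0 => ha ⟨neg_eq_zero.1 h0.2, h0.1⟩)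
    rwa [map_neg, ← sub_eq_add_neg] at this
  have hev : ∀ y : L, W.ev a0 a1 y = (algebraMap F L p1 * y - algebraMap F L q1) *
      (algebraMap F L p2 * y - algebraMap F L q2) := by
    intro y
    unfold W6.ev
    rw [hU, hV, hT]
    simp only [map_neg, map_mul, map_add]
    ring
  have hev1 : W.ev q1 p1 x = P * (algebraMap F L m1 * x + algebraMap F L k1) := by
    unfold W6.ev
    rw [hm1.1, hm1.2.1, hm1.2.2, hP]
    simp only [map_neg, map_mul, map_sub]
    ring
  have hev2 : W.ev q2 p2 x = P * (algebraMap F L m2 * x + algebraMap F L k2) := by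
    unfold W6.ev
    rw [hm2.1, hm2.2.1, hm2.2.2, hP]
    simp only [map_neg, map_mul, map_sub]
    ring
  have J1 := hR.ev q1 p1
  have J2 := hR.ev q2 p2
  have I0 := hR.ev a0 a1
  have I1 := (hR.map s).ev a0 a1
  have I4 := (((hR.map s).map s).map s).map s |>.ev a0 a1
  rw [← hx1, ← hx2, hs4] at I1
  rw [← hx1, ← hx2, ← hx3, ← hx4, hs4, ← hx1, ← hx2, ← hx3] at I4
  rw [hev] at I0 I1 I4
  rw [hev1] at J1
  rw [hev2] at J2
  have hPa : (algebraMap F L a0 - algebraMap F L a1 * x) ^ 2 = P ^ 2 := by
    rw [hP]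
    ring
  have hM : W.A x ^ 2 * W.A x1 * W.A x4 * ((algebraMap F L a0 - algebraMap F L a1 * x2) *
      (algebraMap F L a0 - algebraMap F L a1 * x3)) =
      (algebraMap F L m1 * x + algebraMap F L k1) * (algebraMap F L m2 * x + algebraMap F L k2) := by
    apply mul_left_cancel₀ (pow_ne_zero 2 hP0)
    have e3 : P ^ 2 * ((algebraMap F L m1 * x + algebraMap F L k1) * (algebraMap F L m2 * x + algebraMap F L k2)) =
        (P * (algebraMap F L m1 * x + algebraMap F L k1)) * (P * (algebraMap F L m2 * x + algebraMap F L k2)) := by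
      ring
    have e4 : W.A x * (algebraMap F L q1 - algebraMap F L p1 * x1) * (algebraMap F L q1 - algebraMap F L p1 * x4) *
        (W.A x * (algebraMap F L q2 - algebraMap F L p2 * x1) * (algebraMap F L q2 - algebraMap F L p2 * x4)) =
        W.A x ^ 2 * (((algebraMap F L p1 * x1 - algebraMap F L q1) * (algebraMap F L p2 * x1 - algebraMap F L q2)) *
        ((algebraMap F L p1 * x4 - algebraMap F L q1) * (algebraMap F L p2 * x4 - algebraMap F L q2))) := by
      ring
    rw [e3, J1, J2, e4, I1, I4, ← hPa]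
    ring
  obtain ⟨f0, hf0⟩ := prod_fix hc x a0 a1
  rw [← hx1, ← hx2, ← hx3, ← hx4] at hf0
  have hall : W.A x ^ 3 * W.A x1 * W.A x4 * ((algebraMap F L a0 - algebraMap F L a1 * x1) *
      (algebraMap F L a0 - algebraMap F L a1 * x2) * (algebraMap F L a0 - algebraMap F L a1 * x3) *
      (algebraMap F L a0 - algebraMap F L a1 * x4)) =
      ((algebraMap F L m1 * x + algebraMap F L k1) * (algebraMap F L m2 * x + algebraMap F L k2)) *
      ((algebraMap F L p1 * x + algebraMap F L (-q1)) * (algebraMap F L p2 * x + algebraMap F L (-q2))) := by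
    rw [map_neg, map_neg, ← sub_eq_add_neg, ← sub_eq_add_neg]
    linear_combination (W.A x * (algebraMap F L a0 - algebraMap F L a1 * x1) *
      (algebraMap F L a0 - algebraMap F L a1 * x4)) * hM -
      ((algebraMap F L m1 * x + algebraMap F L k1) * (algebraMap F L m2 * x + algebraMap F L k2)) * I0
  -- nonvanishing
  have hA1 : W.A x1 ≠ 0 := (hR.map s).A0
  have hA4 : W.A x4 ≠ 0 := ((((hR.map s).map s).map s).map s).A0
  have hx1F : ¬ ∃ f : F, algebraMap F L f = x1 := notF hx
  have hx2F : ¬ ∃ f : F, algebraMap F L f = x2 := notF hx1F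
  have hx3F : ¬ ∃ f : F, algebraMap F L f = x3 := notF hx2F
  have hx4F : ¬ ∃ f : F, algebraMap F L f = x4 := notF hx3F
  have hne : ∀ i : L, (¬ ∃ f : F, algebraMap F L f = i) → algebraMap F L a0 - algebraMap F L a1 * i ≠ 0 := by
    intro i hi h0
    have := lin_ne hi (a := -a1) (b := a0) (fun h0 => ha ⟨h0.2, neg_eq_zero.1 h0.1⟩)
    apply this
    rw [map_neg]
    linear_combination h0
  have hprod0 : (algebraMap F L a0 - algebraMap F L a1 * x1) *
      (algebraMap F L a0 - algebraMap F L a1 * x2) * (algebraMap F L a0 - algebraMap F L a1 * x3) *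
      (algebraMap F L a0 - algebraMap F L a1 * x4) ≠ 0 :=
    mul_ne_zero (mul_ne_zero (mul_ne_zero (hne _ hx1F) (hne _ hx2F)) (hne _ hx3F)) (hne _ hx4F)
  have hA10 : W.A x ^ 3 * W.A x1 * W.A x4 ≠ 0 := mul_ne_zero (mul_ne_zero (pow_ne_zero 3 hA0) hA1) hA4
  have hR0 := mul_ne_zero hA10 hprod0
  rw [hall] at hR0
  have n12 := left_ne_zero_of_mul hR0
  have n34 := right_ne_zero_of_mul hR0
  have k1 := h.mr (x - algebraMap F L b) _ _ hA10 hprod0
  rw [hall, h.mr _ _ _ n12 n34, h.mr _ _ _ (left_ne_zero_of_mul n12) (right_ne_zero_of_mul n12),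
    h.mr _ _ _ (left_ne_zero_of_mul n34) (right_ne_zero_of_mul n34), h.xlin, h.xlin, h.xlin, h.xlin] at k1
  have k2 := h.mr (x - algebraMap F L b) _ _ (hne _ hx) hprod0
  rw [← hf0, h.fr] at k2
  have k3 : β (x - algebraMap F L b) (algebraMap F L a0 - algebraMap F L a1 * x) = 0 := by
    have := h.xlin x b (-a1) a0
    rwa [map_neg, show - algebraMap F L a1 * x + algebraMap F L a0 = algebraMap F L a0 - algebraMap F L a1 * x by ring]
      at this
  rw [k3, zero_add] at k2
  rw [← k2] at k1
  simp only [add_zero] at k1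
  exact k1.symm

theorem exists_split (hc : Cy5 s) {x : L}
    (hx : ¬ ∃ f : F, algebraMap F L f = x) {W : W6 F} {x4 : L} (hR : W.Rt x (s x) x4) :
    ∃ a0 a1 y : F, ¬ (a0 = 0 ∧ a1 = 0) ∧ y ^ 2 + W.V a0 a1 * y + W.U a0 a1 * W.T a0 a1 = 0 := by
  set x1 := s x with hx1
  have hrt : W.A x * x1 ^ 2 + W.B x * x1 + W.C x = 0 := by
    linear_combination x1 * hR.sum - hR.prod
  obtain ⟨g0, g1, g2, g3, g4, g5, hne, hw⟩ := hc.six 1 x (x ^ 2) (x ^ 3) (W.A x * x1) (x * (W.A x * x1))
  set c3 : F[X] := C g3 * X ^ 3 + C g2 * X ^ 2 + C g1 * X + C g0 with hc3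
  set l1 : F[X] := C g5 * X + C g4 with hl1
  set pA : F[X] := C W.w5 * X ^ 2 + C W.w4 * X + C W.w3 with hpA
  set pB : F[X] := C W.w4 * X ^ 2 + C W.w2 * X + C W.w1 with hpB
  set pC : F[X] := C W.w3 * X ^ 2 + C W.w1 * X + C W.w0 with hpC
  set N : F[X] := c3 ^ 2 - c3 * l1 * pB + l1 ^ 2 * (pA * pC) with hN
  have ac3 : aeval x c3 = algebraMap F L g3 * x ^ 3 + algebraMap F L g2 * x ^ 2 + algebraMap F L g1 * x +
    algebraMap F L g0 := by simp [hc3]
  have al1 : aeval x l1 = algebraMap F L g5 * x + algebraMap F L g4 := by simp [hl1]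
  have apA : aeval x pA = W.A x := by simp [hpA, W6.A]
  have apB : aeval x pB = W.B x := by simp [hpB, W6.B]
  have apC : aeval x pC = W.C x := by simp [hpC, W6.C]
  have hrel : aeval x c3 + aeval x l1 * (W.A x * x1) = 0 := by
    rw [ac3, al1]
    linear_combination hw
  have hc3deg : c3.natDegree ≤ 3 := natDegree_cubic_le
  have hl1deg : l1.natDegree ≤ 1 := natDegree_linear_le
  have hAdeg : pA.natDegree ≤ 2 := natDegree_quadratic_le
  have hBdeg : pB.natDegree ≤ 2 := natDegree_quadratic_le
  have hCdeg : pC.natDegree ≤ 2 := natDegree_quadratic_le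
  have hN0 : aeval x N = 0 := by
    rw [hN]
    simp only [map_add, map_sub, map_mul, map_pow, apA, apB, apC]
    have : aeval x c3 = - (aeval x l1 * (W.A x * x1)) := by linear_combination hrel
    rw [this]
    linear_combination ((aeval x l1) ^ 2 * W.A x) * hrt
  have hl0 : ¬ (g5 = 0 ∧ g4 = 0) := by
    rintro ⟨h5, h4⟩
    have h0 : aeval x c3 = 0 := by
      have : aeval x l1 = 0 := by rw [al1, h5, h4, map_zero, zero_mul, zero_add]
      rw [this, zero_mul, add_zero] at hrel
      exact hrel
    have h1 := hc.poly_zero hx (hc3deg.trans (by norm_num)) h0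
    have e0 := congrArg (fun p => coeff p 0) h1
    have e1 := congrArg (fun p => coeff p 1) h1
    have e2 := congrArg (fun p => coeff p 2) h1
    have e3 := congrArg (fun p => coeff p 3) h1
    simp [hc3, coeff_X, coeff_C] at e0 e1 e2 e3
    exact hne ⟨e0, e1, e2, e3, h4, h5⟩
  have fin : ∀ e : F, N.eval e = 0 → l1.eval e ≠ 0 →
      ∃ a0 a1 y : F, ¬ (a0 = 0 ∧ a1 = 0) ∧ y ^ 2 + W.V a0 a1 * y + W.U a0 a1 * W.T a0 a1 = 0 := by
    intro e h1 h2
    refine ⟨e, 1, - (c3.eval e) / l1.eval e, fun h => one_ne_zero h.2, ?_⟩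
    have hU : W.U e 1 = pA.eval e := by simp [hpA, W6.U]
    have hV : W.V e 1 = pB.eval e := by simp [hpB, W6.V]
    have hT : W.T e 1 = pC.eval e := by simp [hpC, W6.T]
    rw [hU, hV, hT]
    rw [hN] at h1
    simp only [eval_add, eval_sub, eval_mul, eval_pow] at h1
    field_simp
    linear_combination h1
  by_cases hNz : N = 0
  · by_cases h4 : g4 = 0
    · have h5 : g5 ≠ 0 := fun h5 => hl0 ⟨h5, h4⟩
      refine fin 1 (by rw [hNz, eval_zero]) ?_
      simp [hl1, h4, h5]
    · refine fin 0 (by rw [hNz, eval_zero]) ?_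
      simp [hl1, h4]
  · obtain ⟨g, hg⟩ := minpoly.dvd F x hN0
    have hg0 : g ≠ 0 := fun h0 => hNz (by rw [hg, h0, mul_zero])
    have hm0 : minpoly F x ≠ 0 := fun h0 => hNz (by rw [hg, h0, zero_mul])
    have hNdeg : N.natDegree ≤ 6 := by
      rw [hN]
      refine (natDegree_add_le _ _).trans (max_le ((natDegree_sub_le _ _).trans (max_le ?_ ?_)) ?_)
      · exact natDegree_pow_le.trans (by omega)
      · refine natDegree_mul_le.trans ?_
        have := natDegree_mul_le (p := c3) (q := l1)
        omega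
      · refine natDegree_mul_le.trans ?_
        have h1 := natDegree_mul_le (p := pA) (q := pC)
        have h2 := natDegree_pow_le (p := l1) (n := 2)
        omega
    have hdeg : N.natDegree = 5 + g.natDegree := by
      rw [hg, natDegree_mul hm0 hg0, hc.poly hx]
    -- reduction of degree
    have hgd : g.natDegree ≤ 1 := by omega
    rcases Nat.eq_zero_or_pos g.natDegree with hd | hd
    · -- the point at infinity
      have h6 : N.coeff 6 = 0 := coeff_eq_zero_of_natDegree_lt (by omega)
      have k3 : c3.coeff 3 = g3 := by simp [hc3, coeff_X, coeff_C]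
      have kl : l1.coeff 1 = g5 := by simp [hl1, coeff_C]
      have kA : pA.coeff 2 = W.w5 := by simp [hpA, coeff_X, coeff_C]
      have kB : pB.coeff 2 = W.w4 := by simp [hpB, coeff_X, coeff_C]
      have kC : pC.coeff 2 = W.w3 := by simp [hpC, coeff_X, coeff_C]
      have j1 : (c3 * c3).coeff (3 + 3) = _ := coeff_mul_add_eq_of_natDegree_le hc3deg hc3deg
      have j2 : (c3 * l1).coeff (3 + 1) = _ := coeff_mul_add_eq_of_natDegree_le hc3deg hl1deg
      have d2 : (c3 * l1).natDegree ≤ 3 + 1 := natDegree_mul_le.trans (by omega)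
      have j3 : (c3 * l1 * pB).coeff (3 + 1 + 2) = _ := coeff_mul_add_eq_of_natDegree_le d2 hBdeg
      have j4 : (l1 * l1).coeff (1 + 1) = _ := coeff_mul_add_eq_of_natDegree_le hl1deg hl1deg
      have d4 : (l1 * l1).natDegree ≤ 1 + 1 := natDegree_mul_le.trans (by omega)
      have j5 : (pA * pC).coeff (2 + 2) = _ := coeff_mul_add_eq_of_natDegree_le hAdeg hCdeg
      have d5 : (pA * pC).natDegree ≤ 2 + 2 := natDegree_mul_le.trans (by omega)
      have j6 : (l1 * l1 * (pA * pC)).coeff (1 + 1 + (2 + 2)) = _ := coeff_mul_add_eq_of_natDegree_le d4 d5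
      have h6' : g3 * g3 - g3 * g5 * W.w4 + g5 * g5 * (W.w5 * W.w3) = 0 := by
        have e6 : N.coeff 6 = (c3 * c3).coeff (3 + 3) - (c3 * l1 * pB).coeff (3 + 1 + 2) +
            (l1 * l1 * (pA * pC)).coeff (1 + 1 + (2 + 2)) := by
          rw [hN, pow_two, pow_two, coeff_add, coeff_sub]
        rw [h6, j1, j3, j6, j2, j4, j5, k3, kl, kA, kB, kC] at e6
        exact e6.symm
      by_cases h5 : g5 = 0
      · exfalso
        rw [h5] at h6'
        have h3 : g3 = 0 := by
          have : g3 * g3 = 0 := by linear_combination h6'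
          exact mul_self_eq_zero.1 this
        apply hNz
        refine hc.poly_zero hx ?_ hN0
        have hc3' : c3.natDegree ≤ 2 := by
          rw [hc3, h3, map_zero, zero_mul, zero_add]
          exact natDegree_quadratic_le
        have hl1' : l1.natDegree ≤ 0 := by
          rw [hl1, h5, map_zero, zero_mul, zero_add, natDegree_C]
        rw [hN]
        refine (natDegree_add_le _ _).trans (max_le ((natDegree_sub_le _ _).trans (max_le ?_ ?_)) ?_)
        · exact natDegree_pow_le.trans (by omega)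
        · refine natDegree_mul_le.trans ?_
          have := natDegree_mul_le (p := c3) (q := l1)
          omega
        · refine natDegree_mul_le.trans ?_
          have h1 := natDegree_mul_le (p := pA) (q := pC)
          have h2 := natDegree_pow_le (p := l1) (n := 2)
          omega
      · refine ⟨1, 0, - g3 / g5, fun h => one_ne_zero h.1, ?_⟩
        have hU : W.U 1 0 = W.w5 := by simp [W6.U]
        have hV : W.V 1 0 = W.w4 := by simp [W6.V]
        have hT : W.T 1 0 = W.w3 := by simp [W6.T]
        rw [hU, hV, hT]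
        field_simp
        linear_combination h6'
    · have hd1 : g.natDegree = 1 := by omega
      have hlead : g.coeff 1 ≠ 0 := by
        rw [← hd1]
        exact leadingCoeff_ne_zero.2 hg0
      have hgg : g = C (g.coeff 1) * X + C (g.coeff 0) := eq_X_add_C_of_natDegree_le_one hgd
      set e : F := - g.coeff 0 / g.coeff 1 with he
      have hge : g.eval e = 0 := by
        rw [hgg, eval_add, eval_mul, eval_C, eval_X, eval_C, he, mul_div_cancel₀ _ hlead, neg_add_cancel]
      have hNe : N.eval e = 0 := by rw [hg, eval_mul, hge, mul_zero]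
      by_cases hle : l1.eval e = 0
      · exfalso
        have hle' : g4 = - (g5 * e) := by
          have : g5 * e + g4 = 0 := by simpa [hl1] using hle
          linear_combination this
        have hce : c3.eval e = 0 := by
          rw [hN] at hNe
          simp only [eval_add, eval_sub, eval_mul, eval_pow, hle, mul_zero, zero_mul, sub_zero, ne_eq,
            OfNat.ofNat_ne_zero, not_false_eq_true, zero_pow, add_zero] at hNe
          exact pow_eq_zero_iff (two_ne_zero) |>.1 hNe
        have hce' : g0 = - (g3 * e ^ 3 + g2 * e ^ 2 + g1 * e) := by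
          have : g3 * e ^ 3 + g2 * e ^ 2 + g1 * e + g0 = 0 := by simpa [hc3] using hce
          linear_combination this
        set c2 : F[X] := C g3 * X ^ 2 + C (g2 + g3 * e) * X + C (g1 + g2 * e + g3 * e ^ 2) with hc2
        have hc2deg : c2.natDegree ≤ 2 := natDegree_quadratic_le
        have f1 : c3 = (X - C e) * c2 := by
          rw [hc3, hc2, hce']
          simp only [map_neg, map_add, map_mul, map_pow]
          ring
        have f2 : l1 = (X - C e) * C g5 := by
          rw [hl1, hle']
          simp only [map_neg, map_mul]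
          ring
        set N' : F[X] := c2 ^ 2 - c2 * C g5 * pB + C g5 ^ 2 * (pA * pC) with hN'
        have f3 : N = (X - C e) ^ 2 * N' := by
          rw [hN, hN', f1, f2]
          ring
        have hxe : x - algebraMap F L e ≠ 0 := fun h0 => hx ⟨e, (sub_eq_zero.1 h0).symm⟩
        have h0' : aeval x N' = 0 := by
          rw [f3, map_mul, map_pow, map_sub, aeval_X, aeval_C] at hN0
          exact (mul_eq_zero.1 hN0).resolve_left (pow_ne_zero 2 hxe)
        have hN'z : N' = 0 := by
          refine hc.poly_zero hx ?_ h0'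
          rw [hN']
          have hC5 : (C g5 : F[X]).natDegree = 0 := natDegree_C g5
          refine (natDegree_add_le _ _).trans (max_le ((natDegree_sub_le _ _).trans (max_le ?_ ?_)) ?_)
          · exact natDegree_pow_le.trans (by omega)
          · refine natDegree_mul_le.trans ?_
            have := natDegree_mul_le (p := c2) (q := C g5)
            omega
          · refine natDegree_mul_le.trans ?_
            have h1 := natDegree_mul_le (p := pA) (q := pC)
            have h2 := natDegree_pow_le (p := (C g5 : F[X])) (n := 2)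
            omega
        exact hNz (by rw [f3, hN'z, mul_zero])
      · exact fin e hNe hle

end

end BRP.H90
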