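import Mathlib

/-! A Steinberg symbol on a field L, trivial on a subfield F, with values in a vector space in which 2 is invertible. -/

namespace BRP.H90

universe u v w

/-- A symbol on L (extended by 0), trivial on F. -/
structure Sy (F : Type u) {L : Type v} {Q : Type w} [Field F] [Field L] [Algebra F L] [AddCommGroup Q]
    (β : L → L → Q) : Prop where
  zl : ∀ b, β 0 b = 0
  zr : ∀ a, β a 0 = 0
  ml : ∀ a a' b, a ≠ 0 → a' ≠ 0 → β (a * a') b = β a b + β a' b
  mr : ∀ a b b', b ≠ 0 → b' ≠ 0 → β a (b * b') = β a b + β a b'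
  self : ∀ a, β a a = 0
  st : ∀ a b, a + b = 1 → β a b = 0
  fl : ∀ (f : F) b, β (algebraMap F L f) b = 0

namespace Sy

variable {F : Type u} {L : Type v} {Q : Type w} [Field F] [Field L] [Algebra F L] [AddCommGroup Q]
  {β : L → L → Q}

theorem one_left (h : Sy F β) (b : L) : β 1 b = 0 := by
  have := h.fl 1 b
  rwa [map_one] at this

theorem anti (h : Sy F β) (a b : L) : β a b = - β b a := by
  by_cases ha : a = 0
  · rw [ha, h.zl, h.zr, neg_zero]
  by_cases hb : b = 0
  · rw [hb, h.zl, h.zr, neg_zero]
  have h1 := h.self (a * b)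
  rw [h.ml _ _ _ ha hb, h.mr _ _ _ ha hb, h.mr _ _ _ ha hb, h.self, h.self, zero_add, add_zero] at h1
  exact eq_neg_of_add_eq_zero_left h1

theorem fr (h : Sy F β) (a : L) (f : F) : β a (algebraMap F L f) = 0 := by
  rw [h.anti, h.fl, neg_zero]

theorem one_right (h : Sy F β) (a : L) : β a 1 = 0 := by
  rw [h.anti, h.one_left, neg_zero]

theorem il (h : Sy F β) (a b : L) : β a⁻¹ b = - β a b := by
  by_cases ha : a = 0
  · rw [ha, inv_zero, h.zl, neg_zero]
  have h1 := h.ml a a⁻¹ b ha (inv_ne_zero ha)
  rw [mul_inv_cancel₀ ha, h.one_left] at h1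
  exact (neg_eq_of_add_eq_zero_right h1.symm).symm

theorem ir (h : Sy F β) (a b : L) : β a b⁻¹ = - β a b := by
  rw [h.anti, h.il, neg_neg, h.anti b a]

theorem dl (h : Sy F β) (a a' b : L) (ha : a ≠ 0) (ha' : a' ≠ 0) : β (a / a') b = β a b - β a' b := by
  rw [div_eq_mul_inv, h.ml _ _ _ ha (inv_ne_zero ha'), h.il, sub_eq_add_neg]

theorem dr (h : Sy F β) (a b b' : L) (hb : b ≠ 0) (hb' : b' ≠ 0) : β a (b / b') = β a b - β a b' := by
  rw [div_eq_mul_inv, h.mr _ _ _ hb (inv_ne_zero hb'), h.ir, sub_eq_add_neg]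

/-- multiplication by a scalar in F does not change anything -/
theorem sl (h : Sy F β) (f : F) (hf : f ≠ 0) (a b : L) : β (algebraMap F L f * a) b = β a b := by
  by_cases ha : a = 0
  · rw [ha, mul_zero]
  rw [h.ml _ _ _ (by simpa using hf) ha, h.fl, zero_add]

theorem sr (h : Sy F β) (f : F) (hf : f ≠ 0) (a b : L) : β a (algebraMap F L f * b) = β a b := by
  rw [h.anti, h.sl f hf, ← h.anti]

theorem nl (h : Sy F β) (a b : L) : β (-a) b = β a b := by
  have := h.sl (-1) (by simp) a b
  rwa [map_neg, map_one, neg_one_mul] at this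

theorem nr (h : Sy F β) (a b : L) : β a (-b) = β a b := by
  rw [h.anti, h.nl, ← h.anti]

/-- The three-term relation; no condition is needed. -/
theorem three (h : Sy F β) {a b c : L} (e : a + b = c) : β a b = β a c + β c b := by
  by_cases ha : a = 0
  · subst ha
    rw [zero_add] at e
    subst e
    rw [h.zl, h.self, add_zero]
  by_cases hb : b = 0
  · subst hb
    rw [add_zero] at e
    subst e
    rw [h.zr, h.self, add_zero]
  by_cases hc : c = 0
  · subst hc
    have : b = -a := by linear_combination e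
    rw [this, h.nr, h.nr, h.self, h.zr, h.zl, add_zero]
  have h1 := h.st (a / c) (b / c) (by rw [← add_div, e, div_self hc])
  rw [h.dl _ _ _ ha hc, h.dr _ _ _ hb hc, h.dr _ _ _ hb hc, h.self] at h1
  rw [sub_zero] at h1
  have h2 : β a b = β a c + β c b := by
    have h3 : β a b - β a c - β c b = 0 := h1
    linear_combination (norm := abel) h3
  exact h2

theorem fl_of (h : Sy F β) {a : L} (ha : ∃ f : F, algebraMap F L f = a) (b : L) : β a b = 0 := by
  obtain ⟨f, rfl⟩ := ha
  exact h.fl f b

theorem fr_of (h : Sy F β) (a : L) {b : L} (hb : ∃ f : F, algebraMap F L f = b) : β a b = 0 := by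
  obtain ⟨f, rfl⟩ := hb
  exact h.fr a f

theorem lin (h : Sy F β) (x : L) (a b : F) : β (x - algebraMap F L a) (x - algebraMap F L b) = 0 := by
  have h1 : (x - algebraMap F L a) + (-(x - algebraMap F L b)) = algebraMap F L (b - a) := by
    rw [map_sub]
    ring
  have h2 := h.three h1
  rw [h.nr, h.nr, h.fr, h.fl, add_zero] at h2
  exact h2

theorem linlin (h : Sy F β) (x : L) (a a' c c' : F) :
    β (algebraMap F L a * x + algebraMap F L a') (algebraMap F L c * x + algebraMap F L c') = 0 := by
  by_cases ha : a = 0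
  · rw [ha, map_zero, zero_mul, zero_add, h.fl]
  by_cases hc : c = 0
  · rw [hc, map_zero, zero_mul, zero_add, h.fr]
  have hcL : algebraMap F L c ≠ 0 := by simpa using hc
  have haL : algebraMap F L a ≠ 0 := by simpa using ha
  have h1 : algebraMap F L a * x + algebraMap F L a' = algebraMap F L a * (x - algebraMap F L (- (a' / a))) := by
    rw [map_neg, map_div₀]
    field_simp
    ring
  have h2 : algebraMap F L c * x + algebraMap F L c' = algebraMap F L c * (x - algebraMap F L (- (c' / c))) := by
    rw [map_neg, map_div₀]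
    field_simp
    ring
  rw [h1, h2, h.sl a ha, h.sr c hc, h.lin]

end Sy

/-- The monic quadratic polynomial with trace τ and norm n. -/
def qd {F L : Type*} [Field F] [Field L] [Algebra F L] (τ n : F) (y : L) : L :=
  y ^ 2 - algebraMap F L τ * y + algebraMap F L n

namespace Sy

variable {F : Type u} {L : Type v} {Q : Type w} [Field F] [Field L] [Algebra F L] [AddCommGroup Q]
  {β : L → L → Q}

/-- (T1) with T = 0 -/
theorem tor0 (h : Sy F β) {τ n : F} (hq : ∀ y : L, qd τ n y ≠ 0) {c c' : L} (hT : algebraMap F L τ = c + c') :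
    β c (qd τ n c) + β c' (qd τ n c') = 0 := by
  have h1 : qd τ n c' = qd τ n c := by
    unfold qd
    rw [hT]
    ring
  by_cases hc : c = 0
  · have h2 : qd τ n c' = algebraMap F L n := by
      rw [h1, hc]
      unfold qd
      ring
    rw [hc, h.zl, h2, h.fr, add_zero]
  by_cases hc' : c' = 0
  · have h2 : qd τ n c = algebraMap F L n := by
      rw [← h1, hc']
      unfold qd
      ring
    rw [hc', h.zl, h2, h.fr, add_zero]
  rw [h1, ← h.ml _ _ _ hc hc']
  have h2 : qd τ n c + c * c' = algebraMap F L n := by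
    unfold qd
    rw [hT]
    ring
  have h3 := h.three h2
  rw [h.fr, h.fl, add_zero, h.anti] at h3
  exact neg_eq_zero.1 h3

/-- (T1) -/
theorem tor1 (h : Sy F β) {τ n : F} (hq : ∀ y : L, qd τ n y ≠ 0) {c c' : L}
    (hT : algebraMap F L τ - c - c' ≠ 0) :
    β ((algebraMap F L n - c * c') / (algebraMap F L τ - c - c'))
      (qd τ n ((algebraMap F L n - c * c') / (algebraMap F L τ - c - c'))) =
      β c (qd τ n c) + β c' (qd τ n c') := by
  set T : L := algebraMap F L τ - c - c' with hTd
  set S : L := algebraMap F L n - c * c' with hSd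
  have hn0 : n ≠ 0 := by
    intro h0
    apply hq 0
    unfold qd
    rw [h0, map_zero]
    ring
  have e1 : qd τ n c = S - c * T := by
    rw [hTd, hSd]
    unfold qd
    ring
  have e2 : qd τ n c' = S - c' * T := by
    rw [hTd, hSd]
    unfold qd
    ring
  have e3 : qd τ n (S / T) = qd τ n c * qd τ n c' / T ^ 2 := by
    rw [e1, e2]
    unfold qd
    rw [eq_div_iff (pow_ne_zero 2 hT)]
    have : S / T * T = S := div_mul_cancel₀ S hT
    have h3 : ((S / T) ^ 2 - (algebraMap F L) τ * (S / T) + (algebraMap F L) n) * T ^ 2 =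
      (S / T * T) ^ 2 - (algebraMap F L) τ * (S / T * T) * T + (algebraMap F L) n * T ^ 2 := by ring
    rw [h3, this]
    have h4 : algebraMap F L τ = T + c + c' := by rw [hTd]; ring
    have h5 : algebraMap F L n = S + c * c' := by rw [hSd]; ring
    rw [h4, h5]
    ring
  have hqc := hq c
  have hqc' := hq c'
  rw [e3]
  by_cases hS : S = 0
  · -- c c' = n
    have hcc : c * c' = algebraMap F L n := by
      rw [hSd] at hS
      linear_combination -hS
    have hnL : algebraMap F L n ≠ 0 := by simpa using hn0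
    have hc : c ≠ 0 := fun h0 => hnL (by rw [← hcc, h0, zero_mul])
    have hc' : c' ≠ 0 := fun h0 => hnL (by rw [← hcc, h0, mul_zero])
    rw [hS, zero_div, h.zl, e1, e2, hS, zero_sub, zero_sub, h.nr, h.nr, h.mr _ _ _ hc hT, h.mr _ _ _ hc' hT,
      h.self, h.self, zero_add, zero_add, ← h.ml _ _ _ hc hc', hcc, h.fl]
  · have hqq : qd τ n c * qd τ n c' ≠ 0 := mul_ne_zero hqc hqc'
    have gen : ∀ y : L, qd τ n y = S - y * T → β y (qd τ n y) = β (S / T) (qd τ n y) + β y S - β (S / T) S := by
      intro y hy
      by_cases hy0 : y = 0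
      · have h7 : qd τ n y = S := by rw [hy, hy0]; ring
        rw [h7, hy0, h.zl, add_zero, sub_self]
      · have h8 : y * T + qd τ n y = S := by rw [hy]; ring
        have h9 := h.three h8
        rw [h.ml _ _ _ hy0 hT, h.ml _ _ _ hy0 hT] at h9
        rw [h.dl _ _ _ hS hT, h.dl _ _ _ hS hT, h.self]
        have h10 : β y (qd τ n y) = β y S + β T S + β S (qd τ n y) - β T (qd τ n y) := by
          rw [← h9]
          abel
        rw [h10]
        abel
    have hprod : β (c * c') S = 0 ∨ c * c' = 0 := by
      by_cases h0 : c * c' = 0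
      · exact Or.inr h0
      · left
        have h8 : c * c' + S = algebraMap F L n := by rw [hSd]; ring
        have h9 := h.three h8
        rw [h.fr, h.fl, add_zero] at h9
        exact h9
    have hsum : β c S + β c' S = 0 := by
      rcases hprod with h0 | h0
      · by_cases hc : c = 0
        · have h7 : S = algebraMap F L n := by rw [hSd, hc]; ring
          rw [h7, h.fr, h.fr, add_zero]
        by_cases hc' : c' = 0
        · have h7 : S = algebraMap F L n := by rw [hSd, hc']; ring
          rw [h7, h.fr, h.fr, add_zero]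
        rw [← h.ml _ _ _ hc hc', h0]
      · have h7 : S = algebraMap F L n := by rw [hSd, h0]; ring
        rw [h7, h.fr, h.fr, add_zero]
    have g1 := gen c e1
    have g2 := gen c' e2
    rw [g1, g2, h.dr _ _ _ hqq (pow_ne_zero 2 hT), h.mr _ _ _ hqc hqc', pow_two, h.mr _ _ _ hT hT]
    have h11 : β (S / T) S = β (S / T) T := by
      rw [h.dl _ _ _ hS hT, h.dl _ _ _ hS hT, h.self, h.self, h.anti T S]
      abel
    rw [h11]
    have h12 : β c S = - β c' S := eq_neg_of_add_eq_zero_left hsum
    rw [h12]
    abel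

theorem qd_shift (τ n b : F) (y : L) :
    qd (τ - 2 * b) (b ^ 2 - τ * b + n) (y - algebraMap F L b) = qd τ n y := by
  unfold qd
  simp only [map_sub, map_add, map_mul, map_pow, map_ofNat]
  ring

theorem hq_shift {τ n : F} (hq : ∀ y : L, qd τ n y ≠ 0) (b : F) (y : L) :
    qd (τ - 2 * b) (b ^ 2 - τ * b + n) y ≠ 0 := by
  have := hq (y + algebraMap F L b)
  rwa [← qd_shift τ n b, add_sub_cancel_right] at this

theorem shift0 (h : Sy F β) {τ n : F} (hq : ∀ y : L, qd τ n y ≠ 0) (b : F) {y y' : L}
    (hT : algebraMap F L τ - y - y' = 0) :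
    β (y - algebraMap F L b) (qd τ n y) + β (y' - algebraMap F L b) (qd τ n y') = 0 := by
  rw [← qd_shift τ n b y, ← qd_shift τ n b y']
  refine h.tor0 (hq_shift hq b) ?_
  simp only [map_sub, map_mul, map_ofNat]
  linear_combination hT

theorem shift1 (h : Sy F β) {τ n : F} (hq : ∀ y : L, qd τ n y ≠ 0) (b : F) {y y' : L}
    (hT : algebraMap F L τ - y - y' ≠ 0) :
    β ((algebraMap F L n - y * y') / (algebraMap F L τ - y - y') - algebraMap F L b)
      (qd τ n ((algebraMap F L n - y * y') / (algebraMap F L τ - y - y'))) =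
    β (y - algebraMap F L b) (qd τ n y) + β (y' - algebraMap F L b) (qd τ n y') := by
  rw [← qd_shift τ n b y, ← qd_shift τ n b y', ← qd_shift τ n b ((algebraMap F L n - y * y') / _)]
  have hT' : algebraMap F L (τ - 2 * b) - (y - algebraMap F L b) - (y' - algebraMap F L b) ≠ 0 := by
    have h1 : algebraMap F L (τ - 2 * b) - (y - algebraMap F L b) - (y' - algebraMap F L b) =
      algebraMap F L τ - y - y' := by
      simp only [map_sub, map_mul, map_ofNat]
      ring
    rwa [h1]
  have h2 := h.tor1 (hq_shift hq b) hT'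
  have h3 : (algebraMap F L (b ^ 2 - τ * b + n) - (y - algebraMap F L b) * (y' - algebraMap F L b)) /
      (algebraMap F L (τ - 2 * b) - (y - algebraMap F L b) - (y' - algebraMap F L b)) =
      (algebraMap F L n - y * y') / (algebraMap F L τ - y - y') - algebraMap F L b := by
    have h1 : algebraMap F L (τ - 2 * b) - (y - algebraMap F L b) - (y' - algebraMap F L b) =
      algebraMap F L τ - y - y' := by
      simp only [map_sub, map_mul, map_ofNat]
      ring
    rw [h1, div_sub' hT]
    congr 1
    simp only [map_sub, map_add, map_mul, map_pow, map_ofNat]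
    ring
  rw [h3] at h2
  exact h2

/-- The symbol of y3 obtained from those of y1 and y2, if (θ - y1)(θ - y2) = ρ α (y3 - θ'), θ' = r + t θ. -/
theorem kl (h : Sy F β) {τ n : F} (hq : ∀ y : L, qd τ n y ≠ 0) (b α1 α2 r t : F) (ht : t ≠ 0) {y1 y2 y3 ρ : L}
    (hρ : ρ ≠ 0)
    (e1 : algebraMap F L τ - y1 - y2 = ρ * (algebraMap F L α2 * (y3 - algebraMap F L r) -
      algebraMap F L (α1 * t + α2 * t * τ)))
    (e2 : y1 * y2 - algebraMap F L n = ρ * (algebraMap F L α1 * (y3 - algebraMap F L r) +
      algebraMap F L (α2 * t * n))) :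
    β (y1 - algebraMap F L b) (qd τ n y1) + β (y2 - algebraMap F L b) (qd τ n y2) =
      β (y3 - algebraMap F L (r + t * b)) (qd (2 * r + t * τ) (r ^ 2 + r * t * τ + t ^ 2 * n) y3) := by
  have htL : algebraMap F L t ≠ 0 := by simpa using ht
  set c' : L := (y3 - algebraMap F L r) / algebraMap F L t with hc'
  have hy3 : y3 = algebraMap F L r + algebraMap F L t * c' := by
    rw [hc']
    field_simp
    ring
  have hR : β (y3 - algebraMap F L (r + t * b)) (qd (2 * r + t * τ) (r ^ 2 + r * t * τ + t ^ 2 * n) y3) =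
      β (c' - algebraMap F L b) (qd τ n c') := by
    have h1 : y3 - algebraMap F L (r + t * b) = algebraMap F L t * (c' - algebraMap F L b) := by
      rw [hy3]
      simp only [map_add, map_mul]
      ring
    have h2 : qd (2 * r + t * τ) (r ^ 2 + r * t * τ + t ^ 2 * n) y3 = algebraMap F L (t ^ 2) * qd τ n c' := by
      rw [hy3]
      unfold qd
      simp only [map_add, map_mul, map_pow, map_ofNat]
      ring
    rw [h1, h2, h.sl t ht, h.sr _ (pow_ne_zero 2 ht)]
  rw [hR]
  rw [hy3] at e1 e2
  by_cases hα2 : α2 = 0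
  · have hα1 : α1 ≠ 0 := by
      intro h0
      apply hq y1
      rw [hα2, h0] at e1 e2
      simp only [map_zero, zero_mul, add_zero, sub_zero, mul_zero] at e1 e2
      unfold qd
      linear_combination (-y1) * e1 - e2
    have hα1L : algebraMap F L α1 ≠ 0 := by simpa using hα1
    rw [hα2] at e1 e2
    simp only [map_zero, zero_mul, add_zero, zero_sub, map_mul] at e1 e2
    have hT : algebraMap F L τ - y1 - y2 ≠ 0 := by
      rw [e1]
      exact mul_ne_zero hρ (neg_ne_zero.2 (mul_ne_zero hα1L htL))
    have h2 := h.shift1 hq b hT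
    have h3 : (algebraMap F L n - y1 * y2) / (algebraMap F L τ - y1 - y2) = c' := by
      rw [div_eq_iff hT, e1]
      linear_combination -e2
    rw [h3] at h2
    exact h2.symm
  · have hα2L : algebraMap F L α2 ≠ 0 := by simpa using hα2
    set c0 : F := - α1 / α2 with hc0
    have hα1 : algebraMap F L α1 = - algebraMap F L c0 * algebraMap F L α2 := by
      rw [hc0, map_div₀, map_neg]
      field_simp
    have e1' : algebraMap F L τ - y1 - y2 = - (ρ * algebraMap F L α2 * algebraMap F L t) *
        (algebraMap F L τ - algebraMap F L c0 - c') := by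
      rw [e1]
      simp only [map_add, map_mul]
      rw [hα1]
      ring
    have e2' : algebraMap F L n - y1 * y2 = - (ρ * algebraMap F L α2 * algebraMap F L t) *
        (algebraMap F L n - algebraMap F L c0 * c') := by
      have h4 : algebraMap F L n - y1 * y2 = - (y1 * y2 - algebraMap F L n) := by ring
      rw [h4, e2]
      simp only [map_mul]
      rw [hα1]
      ring
    have hk : - (ρ * algebraMap F L α2 * algebraMap F L t) ≠ 0 :=
      neg_ne_zero.2 (mul_ne_zero (mul_ne_zero hρ hα2L) htL)
    have hz : β (algebraMap F L c0 - algebraMap F L b) (qd τ n (algebraMap F L c0)) = 0 := by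
      rw [← map_sub, h.fl]
    by_cases hT : algebraMap F L τ - algebraMap F L c0 - c' = 0
    · have h2 := h.shift0 hq b hT
      rw [hz, zero_add] at h2
      have hT' : algebraMap F L τ - y1 - y2 = 0 := by rw [e1', hT, mul_zero]
      rw [h2, h.shift0 hq b hT']
    · have h2 := h.shift1 hq b hT
      rw [hz, zero_add] at h2
      have hT' : algebraMap F L τ - y1 - y2 ≠ 0 := by
        rw [e1']
        exact mul_ne_zero hk hT
      have h3 := h.shift1 hq b hT'
      have h4 : (algebraMap F L n - y1 * y2) / (algebraMap F L τ - y1 - y2) =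
          (algebraMap F L n - algebraMap F L c0 * c') / (algebraMap F L τ - algebraMap F L c0 - c') := by
        rw [e1', e2', mul_div_mul_left _ _ hk]
      rw [h4, h2] at h3
      exact h3.symm

/-- The degenerate case of the previous lemma. -/
theorem kl0 (h : Sy F β) {τ n : F} (hq : ∀ y : L, qd τ n y ≠ 0) (b α1 α2 : F) {y1 y2 ρ : L} (hρ : ρ ≠ 0)
    (e1 : algebraMap F L τ - y1 - y2 = ρ * algebraMap F L α2)
    (e2 : y1 * y2 - algebraMap F L n = ρ * algebraMap F L α1) :
    β (y1 - algebraMap F L b) (qd τ n y1) + β (y2 - algebraMap F L b) (qd τ n y2) = 0 := by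
  by_cases hα2 : α2 = 0
  · refine h.shift0 hq b ?_
    rw [e1, hα2, map_zero, mul_zero]
  · have hα2L : algebraMap F L α2 ≠ 0 := by simpa using hα2
    have hT : algebraMap F L τ - y1 - y2 ≠ 0 := by
      rw [e1]
      exact mul_ne_zero hρ hα2L
    have h3 := h.shift1 hq b hT
    have h4 : (algebraMap F L n - y1 * y2) / (algebraMap F L τ - y1 - y2) = algebraMap F L (- (α1 / α2)) := by
      rw [div_eq_iff hT, e1, map_neg, map_div₀]
      field_simp
      linear_combination -e2
    rw [h4, ← map_sub, h.fl] at h3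
    exact h3.symm

/-- (T4) -/
theorem f1 (h : Sy F β) {τ n : F} (hq : ∀ y : L, qd τ n y ≠ 0) (x : L) (b : F) :
    β (x - algebraMap F L (τ - b)) (qd τ n x) = - β (x - algebraMap F L b) (qd τ n x) := by
  by_cases h1 : x - algebraMap F L b = 0
  · rw [h1, h.zl, neg_zero]
    have : qd τ n x = algebraMap F L (b ^ 2 - τ * b + n) := by
      rw [sub_eq_zero.1 h1]
      unfold qd
      simp only [map_sub, map_add, map_mul, map_pow]
    rw [this, h.fr]
  by_cases h2 : x - algebraMap F L (τ - b) = 0
  · rw [h2, h.zl]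
    have : qd τ n x = algebraMap F L (b ^ 2 - τ * b + n) := by
      rw [sub_eq_zero.1 h2]
      unfold qd
      simp only [map_sub, map_add, map_mul, map_pow]
      ring
    rw [this, h.fr, neg_zero]
  have h3 : (x - algebraMap F L b) * (x - algebraMap F L (τ - b)) + (- qd τ n x) =
      algebraMap F L (- (b ^ 2 - τ * b + n)) := by
    unfold qd
    simp only [map_sub, map_add, map_mul, map_pow, map_neg]
    ring
  have h4 := h.three h3
  rw [h.fr, h.fl, add_zero, h.nr, h.ml _ _ _ h1 h2] at h4
  exact eq_neg_of_add_eq_zero_right h4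

theorem f2 (h : Sy F β) {τ n : F} (hq : ∀ y : L, qd τ n y ≠ 0) (x : L) (b b' : F) (hbb : b + b' ≠ τ) :
    β (x - algebraMap F L ((b * b' - n) / (b + b' - τ))) (qd τ n x) =
      β (x - algebraMap F L b) (qd τ n x) + β (x - algebraMap F L b') (qd τ n x) := by
  have hδ : b + b' - τ ≠ 0 := sub_ne_zero.2 hbb
  set e : F := (b * b' - n) / (b + b' - τ) with he
  have he1 : e * (b + b' - τ) = b * b' - n := div_mul_cancel₀ _ hδ
  have he2 : algebraMap F L e * algebraMap F L (b + b' - τ) = algebraMap F L (b * b' - n) := by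
    rw [← map_mul, he1]
  have h3 : (x - algebraMap F L b) * (x - algebraMap F L b') +
      algebraMap F L (b + b' - τ) * (x - algebraMap F L e) = qd τ n x := by
    unfold qd
    have : algebraMap F L (b + b' - τ) * (x - algebraMap F L e) = algebraMap F L (b + b' - τ) * x -
      algebraMap F L (b * b' - n) := by rw [← he2]; ring
    rw [this]
    simp only [map_sub, map_add, map_mul]
    ring
  have h4 := h.three h3
  rw [h.sr _ hδ, h.sr _ hδ] at h4
  by_cases h1 : x - algebraMap F L b = 0
  · have h5 : qd τ n x = algebraMap F L (b ^ 2 - τ * b + n) := by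
      rw [sub_eq_zero.1 h1]
      unfold qd
      simp only [map_sub, map_add, map_mul, map_pow]
    rw [h5, h.fr, h.fr, h.fr, add_zero]
  by_cases h2 : x - algebraMap F L b' = 0
  · have h5 : qd τ n x = algebraMap F L (b' ^ 2 - τ * b' + n) := by
      rw [sub_eq_zero.1 h2]
      unfold qd
      simp only [map_sub, map_add, map_mul, map_pow]
    rw [h5, h.fr, h.fr, h.fr, add_zero]
  rw [h.ml _ _ _ h1 h2, h.ml _ _ _ h1 h2, h.lin, h.lin, add_zero, h.anti (qd τ n x)] at h4
  have h6 : β (x - algebraMap F L b) (qd τ n x) + β (x - algebraMap F L b') (qd τ n x) -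
    β (x - algebraMap F L e) (qd τ n x) = 0 := by
    rw [sub_eq_add_neg]
    exact h4.symm
  exact (sub_eq_zero.1 h6).symm

end Sy

end BRP.H90
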